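import Pool.Agent.Work.MP_eab7e5_al.Main

namespace Pool.Agent.Results.MP_eab7e5_al.Counterexample

open Pool.Agent.Work.MP_eab7e5_al

/-- A strongly group graded ring that is graded simple, in which the centralizer of the neutral
component is its center, and which is not simple. -/
theorem result :
    ∃ (G : Type) (_ : Group G) (R : Type) (_ : Ring R) (A : G → AddSubgroup R),
      (1 : R) ≠ 0 ∧ iSupIndep A ∧ iSup A = ⊤ ∧
      (∀ g h, AddSubgroup.closure {z | ∃ x ∈ A g, ∃ y ∈ A h, z = x * y} = A (g * h)) ∧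
      (∀ I : TwoSidedIdeal R,
        (∀ x ∈ I, x ∈ AddSubgroup.closure {y | y ∈ I ∧ ∃ g, y ∈ A g}) → I = ⊥ ∨ I = ⊤) ∧
      {r : R | ∀ a ∈ A 1, r * a = a * r} = {r : R | r ∈ A 1 ∧ ∀ a ∈ A 1, r * a = a * r} ∧
      ∃ I : TwoSidedIdeal R, I ≠ ⊥ ∧ I ≠ ⊤ :=
  ⟨GG, inferInstance,
    @abstract BB GG _ _ BB_nontrivial DD ph normalizes simple centralizer overlap⟩

end Pool.Agent.Results.MP_eab7e5_al.Counterexample
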